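import Mathlib
import Pool.Agent.TraceMin.StDefs
import Pool.Agent.TraceMin.FinalD

/-!
# The trace-minimising arithmetic measure has zero logarithmic energy

Every arithmetic probability measure with compact support in `[0, ∞)` whose mean is the
Schur-Siegel-Smyth trace constant has logarithmic energy `0`. The definitions used by the
statement are in `Pool/Agent/TraceMin/StDefs.lean`; for the proof see `UniqueMinimiser.lean`.
-/

open MeasureTheory

namespace Pool.Agent.Results.MP_d35819_nt.MinimiserEnergyZero

open Pool.Agent.TraceMinDefs

/-- Every arithmetic probability measure `μ` whose support is a compact subset of `[0, ∞)` and whose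
mean is the Schur-Siegel-Smyth trace constant has `I(μ) = ∬ log |x - y| dμ dμ = 0`, the double
integral being absolutely convergent and the diagonal being a null set. -/
theorem result (μ : Measure ℂ) (hprob : IsProbabilityMeasure μ) (harith : IsArithmetic μ)
    (hcompact : IsCompact μ.support) (hsupp : μ.support ⊆ {z : ℂ | z.im = 0 ∧ 0 ≤ z.re})
    (hmean : ∫ z, z.re ∂μ = traceConstant) :
    Integrable (fun p : ℂ × ℂ => Real.log ‖p.1 - p.2‖) (μ.prod μ) ∧
      (μ.prod μ) {p | p.1 = p.2} = 0 ∧
      ∫ p : ℂ × ℂ, Real.log ‖p.1 - p.2‖ ∂(μ.prod μ) = 0 :=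
  Pool.Agent.TraceMin.final_energy μ hprob harith hcompact hsupp hmean

end Pool.Agent.Results.MP_d35819_nt.MinimiserEnergyZero
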