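import Mathlib
import Pool.Agent.TraceMin.StDefs
import Pool.Agent.TraceMin.FinalD

/-!
# Uniqueness of the trace-minimising arithmetic measure

Among the arithmetic probability measures whose support is a compact subset of `[0, ∞)` there is
exactly one whose mean is the Schur-Siegel-Smyth trace constant. The definitions used by the
statement are in `Pool/Agent/TraceMin/StDefs.lean`.

Outline of the proof (the modules are in `Pool/Agent/TraceMin/`).

* Lifting by `x = y ^ 2` turns the mean into the second moment `∫ y ^ 2`; let `l` be its least value
  on arithmetic measures of the line (`Lift`, `Cut`). By duality (`Duality`) there are for every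
  `ε > 0` finitely many distinct irreducible `Q` and `a Q > 0` with
  `∑ a Q * log |Q y| ≤ y ^ 2 - l + ε` on `[-R, R]`.
* Every arithmetic measure has energy `I ≥ 0` (`Mink`, `EnergyA`-`EnergyE`: Minkowski's theorem on
  linear forms), and for distinct measures the energy is strictly concave (`FinalA`). So two
  minimisers would give a minimiser `μ` with `I > 0`.
* If `I > 0`: let `J Q` be the integral of `log |Q|` against `μ` smoothed at scale `r`, and
  let `S'` be the set of those `Q` of the certificate with `J Q < (I / 8) * deg Q`. Positive
  definiteness of the smoothed logarithmic kernels and the discriminant of the product of the `Q` in `S'`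
  (`Psd`, `Discr`, `MainA`, `MainB`) bound the total degree and height of `S'` by `o(log (1 / r))`,
  while a Hoelder estimate for the potentials of the certificate (`Holder`, `Tail`) shows that the
  other `Q` contribute at most `r ^ (1 / 10) * log (1 / r)`, up to a constant. So
  `y ^ 2 - l + ε - ∑_{Q ∈ S'} a Q * log |Q y|` is tiny on a set of measure at least `3 / 4` which is a union
  of few intervals on which this function is monotone; this is impossible (`Pieces*`, `MainE`). Hence
  `I = 0` for every minimiser, and the minimiser is unique.
* `l` is the trace constant: Smyth's method of auxiliary functions gives one inequality (`Smyth`), and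
  the other one is Smith's theorem, reproved in the form needed (`Regular`, `Koksma`, `Hankel`,
  `DualNorm`, `Smith`, `Upper`).
-/

open MeasureTheory

namespace Pool.Agent.Results.MP_d35819_nt.UniqueMinimiser

open Pool.Agent.TraceMinDefs

/-- There is exactly one arithmetic probability measure `μ` whose support is a compact subset of
`[0, ∞)` and whose mean is the Schur-Siegel-Smyth trace constant. -/
theorem result : ∃! μ : Measure ℂ, IsProbabilityMeasure μ ∧ IsArithmetic μ ∧
    IsCompact μ.support ∧ μ.support ⊆ {z : ℂ | z.im = 0 ∧ 0 ≤ z.re} ∧
    ∫ z, z.re ∂μ = traceConstant :=
  Pool.Agent.TraceMin.final_plane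

end Pool.Agent.Results.MP_d35819_nt.UniqueMinimiser
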